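import Pool.Agent.helper23.BN.Basic

set_option autoImplicit false

/-!
# MP_94a57f_an: the solution operator `T` (module A3)
-/

open MeasureTheory Filter Topology Set Metric
open scoped ContDiff Gradient RealInnerProductSpace ENNReal

noncomputable section

namespace Pool.Agent.helper13.BN

variable {N : ℕ}

/-! ### Exponents -/

theorem ts_pos58 (hN : 3 ≤ N) : 0 < ts N := by
  have : (3 : ℝ) ≤ N := by exact_mod_cast hN
  unfold ts
  apply div_pos <;> linarith

theorem td_pos58 (hN : 3 ≤ N) : 0 < td N := by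
  have : (3 : ℝ) ≤ N := by exact_mod_cast hN
  unfold td
  apply div_pos <;> linarith

theorem holderTriple58 {p q r : ℝ} (hp : 0 < p) (hq : 0 < q) (hr : 0 < r)
    (h : p⁻¹ + q⁻¹ = r⁻¹) :
    ENNReal.HolderTriple (ENNReal.ofReal p) (ENNReal.ofReal q) (ENNReal.ofReal r) := by
  constructor
  rw [← ENNReal.ofReal_inv_of_pos hp, ← ENNReal.ofReal_inv_of_pos hq,
    ← ENNReal.ofReal_inv_of_pos hr, ← ENNReal.ofReal_add (by positivity) (by positivity), h]

theorem holder_ts_td58 (hN : 3 ≤ N) :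
    ENNReal.HolderTriple (ENNReal.ofReal (td N)) (ENNReal.ofReal (ts N)) 1 := by
  have h3 : (3 : ℝ) ≤ N := by exact_mod_cast hN
  have h := holderTriple58 (td_pos58 hN) (ts_pos58 hN) one_pos (by
    unfold td ts
    have : (N : ℝ) - 2 ≠ 0 := by linarith
    have : (N : ℝ) + 2 ≠ 0 := by linarith
    have : (N : ℝ) ≠ 0 := by linarith
    field_simp
    ring)
  rwa [ENNReal.ofReal_one] at h

/-- Hölder's inequality in the form needed here -/
theorem holder_int58 (hN : 3 ≤ N) {Ω : Set (E N)} {g f : E N → ℝ} (hg : Mq (td N) Ω g)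
    (hf : Mq (ts N) Ω f) :
    Integrable (fun x => g x * f x) (volume.restrict Ω) ∧
      |∫ x in Ω, g x * f x| ≤ nq (td N) Ω g * nq (ts N) Ω f := by
  have := holder_ts_td58 hN
  have h1 : MemLp (g * f) 1 (volume.restrict Ω) := hf.mul hg
  have h2 : Integrable (fun x => g x * f x) (volume.restrict Ω) := memLp_one_iff_integrable.1 h1
  refine ⟨h2, ?_⟩
  have h3 : eLpNorm (g * f) 1 (volume.restrict Ω) ≤
      eLpNorm g (ENNReal.ofReal (td N)) (volume.restrict Ω) *
        eLpNorm f (ENNReal.ofReal (ts N)) (volume.restrict Ω) := by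
    have := eLpNorm_smul_le_mul_eLpNorm (μ := volume.restrict Ω) (p := ENNReal.ofReal (td N))
      (q := ENNReal.ofReal (ts N)) (r := 1) hf.1 hg.1
    simpa [smul_eq_mul] using this
  have h4 : ‖∫ x in Ω, g x * f x‖ ≤ (eLpNorm (g * f) 1 (volume.restrict Ω)).toReal := by
    refine (norm_integral_le_integral_norm _).trans (le_of_eq ?_)
    rw [eLpNorm_one_eq_lintegral_enorm]
    exact integral_norm_eq_lintegral_enorm h2.1
  rw [Real.norm_eq_abs] at h4
  refine h4.trans ?_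
  unfold nq
  rw [← ENNReal.toReal_mul]
  exact ENNReal.toReal_mono (ENNReal.mul_ne_top hg.2.ne hf.2.ne) h3

theorem Mq_univ58 {q : ℝ} {f : E N → ℝ} (Ω : Set (E N)) (h : Mq q univ f) : Mq q Ω f := by
  unfold Mq at *
  rw [Measure.restrict_univ] at h
  exact h.restrict Ω

theorem nq_mono_set58 {q : ℝ} {f : E N → ℝ} (Ω : Set (E N)) (h : Mq q univ f) :
    nq q Ω f ≤ nq q univ f := by
  unfold nq
  refine ENNReal.toReal_mono h.2.ne ?_
  exact eLpNorm_mono_measure _ (Measure.restrict_mono (subset_univ _) le_rfl)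

/-- bound of the functional `w' ↦ ∫_Ω g fn w'` -/
theorem bound58 (hN : 3 ≤ N) {Ω : Set (E N)} {g : E N → ℝ} (hg : Mq (td N) Ω g) {w : LV N}
    (hw : w ∈ DD univ) :
    Integrable (fun x => g x * fn w x) (volume.restrict Ω) ∧
      |∫ x in Ω, g x * fn w x| ≤ SS N * nq (td N) Ω g * ‖w‖ := by
  obtain ⟨h1, h2⟩ := sobolev hN hw
  obtain ⟨h3, h4⟩ := holder_int58 hN hg (Mq_univ58 Ω h1)
  refine ⟨h3, h4.trans ?_⟩
  have h5 : 0 ≤ nq (td N) Ω g := ENNReal.toReal_nonneg
  calc nq (td N) Ω g * nq (ts N) Ω (fn w) ≤ nq (td N) Ω g * (SS N * ‖w‖) :=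
        mul_le_mul_of_nonneg_left ((nq_mono_set58 Ω h1).trans h2) h5
    _ = SS N * nq (td N) Ω g * ‖w‖ := by ring

theorem DD_le_univ58 (Ω : Set (E N)) : DD Ω ≤ DD (univ : Set (E N)) := DD_mono (subset_univ _)

instance complete_DD58 (Ω : Set (E N)) : CompleteSpace (DD Ω) :=
  (Submodule.isClosed_topologicalClosure _).completeSpace_coe

/-- the functional `w' ↦ ∫_Ω g fn w'` on `DD Ω` -/
def functional58 (hN : 3 ≤ N) (Ω : Set (E N)) (g : E N → ℝ) (hg : Mq (td N) Ω g) :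
    DD Ω →L[ℝ] ℝ :=
  LinearMap.mkContinuous
    { toFun := fun w => ∫ x in Ω, g x * fn (w : LV N) x
      map_add' := by
        intro w w'
        have hw := DD_le_univ58 Ω w.2
        have hw' := DD_le_univ58 Ω w'.2
        rw [← integral_add (bound58 hN hg hw).1 (bound58 hN hg hw').1]
        refine integral_congr_ae ?_
        filter_upwards [ae_restrict_of_ae (fn_add hN hw hw')] with x hx
        rw [Submodule.coe_add, hx, mul_add]
      map_smul' := by
        intro c w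
        have hw := DD_le_univ58 Ω w.2
        rw [RingHom.id_apply, smul_eq_mul, ← integral_const_mul]
        refine integral_congr_ae ?_
        filter_upwards [ae_restrict_of_ae (fn_smul hN c hw)] with x hx
        rw [Submodule.coe_smul, hx]
        ring }
    (SS N * nq (td N) Ω g) (fun w => by
      rw [Real.norm_eq_abs]
      exact (bound58 hN hg (DD_le_univ58 Ω w.2)).2)

/-- pairing with all of `DD Ω` gives the weak equation -/
theorem weak_of_pair58 (hN : 3 ≤ N) {Ω : Set (E N)} {g : E N → ℝ} {w : LV N} (hw : w ∈ DD Ω)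
    (h : ∀ w' ∈ DD Ω, ⟪w, w'⟫ = ∫ x in Ω, g x * fn w' x) : Weak Ω w g := by
  refine ⟨hw, fun φ W hφ hW => ?_⟩
  have hmem : W ∈ DD Ω := Submodule.le_topologicalClosure _ (Submodule.subset_span ⟨φ, hφ, hW⟩)
  rw [h W hmem]
  have h1 : fn W =ᵐ[volume] φ := fn_test hN ⟨hφ.1, hφ.2.1, subset_univ _⟩ hW
  have h2 : ∫ x, g x * φ x = ∫ x in Ω, g x * φ x := by
    symm
    refine setIntegral_eq_integral_of_forall_compl_eq_zero (fun x hx => ?_)
    have : φ x = 0 := by
      by_contra hne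
      exact hx (hφ.2.2 (subset_tsupport _ hne))
    rw [this, mul_zero]
  rw [h2]
  refine integral_congr_ae ?_
  filter_upwards [ae_restrict_of_ae h1] with x hx
  rw [hx]

theorem exists_pair58 (hN : 3 ≤ N) {Ω : Set (E N)} {g : E N → ℝ} (hg : Mq (td N) Ω g) :
    ∃ w ∈ DD Ω, ∀ w' ∈ DD Ω, ⟪w, w'⟫ = ∫ x in Ω, g x * fn w' x := by
  refine ⟨((InnerProductSpace.toDual ℝ (DD Ω)).symm (functional58 hN Ω g hg) : DD Ω),
    Subtype.mem _, fun w' hw' => ?_⟩
  have h := InnerProductSpace.toDual_symm_apply (𝕜 := ℝ) (E := DD Ω) (x := ⟨w', hw'⟩)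
    (y := functional58 hN Ω g hg)
  rw [Submodule.coe_inner] at h
  exact h

theorem weak_unique {Ω : Set (E N)} {w w' : LV N} {g : E N → ℝ} (h : Weak Ω w g)
    (h' : Weak Ω w' g) : w = w' := by
  have h1 : DD Ω ≤ (Submodule.span ℝ {w - w'})ᗮ := by
    refine Submodule.topologicalClosure_minimal _ ?_ (Submodule.isClosed_orthogonal _)
    refine Submodule.span_le.2 ?_
    rintro W ⟨φ, hφ, hW⟩
    rw [SetLike.mem_coe, Submodule.mem_orthogonal_singleton_iff_inner_right, inner_sub_left,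
      h.2 φ W hφ hW, h'.2 φ W hφ hW, sub_self]
  have h2 : w - w' ∈ DD Ω := Submodule.sub_mem _ h.1 h'.1
  have h3 := (Submodule.mem_orthogonal_singleton_iff_inner_right).1 (h1 h2)
  exact sub_eq_zero.1 (inner_self_eq_zero.1 h3)

theorem T_mem (Ω : Set (E N)) (g : E N → ℝ) : T Ω g ∈ DD Ω := by
  unfold T
  split_ifs with h
  · exact h.choose_spec.1
  · exact Submodule.zero_mem _

theorem T_weak (hN : 3 ≤ N) {Ω : Set (E N)} (hΩ : MeasurableSet Ω) {g : E N → ℝ}
    (hg : Mq (td N) Ω g) : Weak Ω (T Ω g) g := by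
  obtain ⟨w, hw, h⟩ := exists_pair58 hN hg
  have hex : ∃ w, Weak Ω w g := ⟨w, weak_of_pair58 hN hw h⟩
  unfold T
  rw [dif_pos hex]
  exact hex.choose_spec

theorem weak_iff_T (hN : 3 ≤ N) {Ω : Set (E N)} (hΩ : MeasurableSet Ω) {g : E N → ℝ} {w : LV N}
    (hg : Mq (td N) Ω g) : Weak Ω w g ↔ w = T Ω g := by
  constructor
  · intro h
    exact weak_unique h (T_weak hN hΩ hg)
  · rintro rfl
    exact T_weak hN hΩ hg

/-- the weak equation against all elements of `DD Ω` -/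
theorem weak_pair (hN : 3 ≤ N) {Ω : Set (E N)} (hΩ : MeasurableSet Ω) {g : E N → ℝ} {w w' : LV N}
    (hg : Mq (td N) Ω g) (h : Weak Ω w g) (hw' : w' ∈ DD Ω) :
    Integrable (fun x => g x * fn w' x) (volume.restrict Ω) ∧
      ⟪w, w'⟫ = ∫ x in Ω, g x * fn w' x := by
  obtain ⟨w0, hw0, h0⟩ := exists_pair58 hN hg
  have : w = w0 := weak_unique h (weak_of_pair58 hN hw0 h0)
  subst this
  exact ⟨(bound58 hN hg (DD_le_univ58 Ω hw')).1, h0 w' hw'⟩

theorem T_norm (hN : 3 ≤ N) {Ω : Set (E N)} (hΩ : MeasurableSet Ω) {g : E N → ℝ}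
    (hg : Mq (td N) Ω g) : ‖T Ω g‖ ≤ SS N * nq (td N) Ω g := by
  have h1 := T_mem Ω g
  have h2 := (weak_pair hN hΩ hg (T_weak hN hΩ hg) h1).2
  have h3 := (bound58 hN hg (DD_le_univ58 Ω h1)).2
  rw [← h2, real_inner_self_eq_norm_sq] at h3
  rcases eq_or_lt_of_le (norm_nonneg (T Ω g)) with h4 | h4
  · rw [← h4]
    exact mul_nonneg SS_pos.le ENNReal.toReal_nonneg
  · have h5 : ‖T Ω g‖ ^ 2 ≤ SS N * nq (td N) Ω g * ‖T Ω g‖ := (le_abs_self _).trans h3
    rw [pow_two] at h5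
    exact le_of_mul_le_mul_right h5 h4

theorem T_add (hN : 3 ≤ N) {Ω : Set (E N)} (hΩ : MeasurableSet Ω) {g h : E N → ℝ}
    (hg : Mq (td N) Ω g) (hh : Mq (td N) Ω h) :
    T Ω (fun x => g x + h x) = T Ω g + T Ω h := by
  symm
  refine (weak_iff_T hN hΩ (hg.add hh : Mq (td N) Ω (fun x => g x + h x))).1 ?_
  refine weak_of_pair58 hN (Submodule.add_mem _ (T_mem _ _) (T_mem _ _)) (fun w' hw' => ?_)
  obtain ⟨h1, h2⟩ := weak_pair hN hΩ hg (T_weak hN hΩ hg) hw'
  obtain ⟨h3, h4⟩ := weak_pair hN hΩ hh (T_weak hN hΩ hh) hw'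
  rw [inner_add_left, h2, h4, ← integral_add h1 h3]
  refine integral_congr_ae (Eventually.of_forall fun x => ?_)
  simp only [Pi.add_apply]
  ring

theorem T_smul (hN : 3 ≤ N) {Ω : Set (E N)} (hΩ : MeasurableSet Ω) (c : ℝ) {g : E N → ℝ}
    (hg : Mq (td N) Ω g) : T Ω (fun x => c * g x) = c • T Ω g := by
  symm
  refine (weak_iff_T hN hΩ (hg.const_mul c : Mq (td N) Ω (fun x => c * g x))).1 ?_
  refine weak_of_pair58 hN (Submodule.smul_mem _ _ (T_mem _ _)) (fun w' hw' => ?_)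
  obtain ⟨h1, h2⟩ := weak_pair hN hΩ hg (T_weak hN hΩ hg) hw'
  rw [real_inner_smul_left, h2, ← integral_const_mul]
  refine integral_congr_ae (Eventually.of_forall fun x => ?_)
  simp only
  ring

theorem T_sub (hN : 3 ≤ N) {Ω : Set (E N)} (hΩ : MeasurableSet Ω) {g h : E N → ℝ}
    (hg : Mq (td N) Ω g) (hh : Mq (td N) Ω h) :
    T Ω (fun x => g x - h x) = T Ω g - T Ω h := by
  have h1 := T_add hN hΩ hg (hh.const_mul (-1) : Mq (td N) Ω (fun x => (-1) * h x))
  have h2 := T_smul hN hΩ (-1) hh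
  rw [h2] at h1
  have h3 : (fun x => g x - h x) = fun x => g x + (-1) * h x := by
    funext x
    ring
  rw [h3, h1]
  simp [sub_eq_add_neg]

theorem T_congr {Ω : Set (E N)} (hΩ : MeasurableSet Ω) {g h : E N → ℝ}
    (hgh : ∀ᵐ x, x ∈ Ω → g x = h x) : T Ω g = T Ω h := by
  have key : ∀ w, Weak Ω w g ↔ Weak Ω w h := by
    intro w
    unfold Weak
    refine and_congr_right fun _ => ?_
    refine forall_congr' fun φ => forall_congr' fun W => ?_
    refine forall_congr' fun hφ => forall_congr' fun _ => ?_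
    have : ∫ x, g x * φ x = ∫ x, h x * φ x := by
      refine integral_congr_ae ?_
      filter_upwards [hgh] with x hx
      by_cases hxΩ : x ∈ Ω
      · rw [hx hxΩ]
      · have : φ x = 0 := by
          by_contra hne
          exact hxΩ (hφ.2.2 (subset_tsupport _ hne))
        rw [this, mul_zero, mul_zero]
    rw [this]
  unfold T
  by_cases hex : ∃ w, Weak Ω w g
  · have hex' : ∃ w, Weak Ω w h := by
      obtain ⟨w, hw⟩ := hex
      exact ⟨w, (key w).1 hw⟩
    rw [dif_pos hex, dif_pos hex']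
    exact weak_unique ((key _).1 hex.choose_spec) hex'.choose_spec
  · have hex' : ¬ ∃ w, Weak Ω w h := by
      rintro ⟨w, hw⟩
      exact hex ⟨w, (key w).2 hw⟩
    rw [dif_neg hex, dif_neg hex']

theorem T_symm (hN : 3 ≤ N) {Ω : Set (E N)} (hΩ : MeasurableSet Ω) {g h : E N → ℝ}
    (hg : Mq (td N) Ω g) (hh : Mq (td N) Ω h) :
    ∫ x in Ω, g x * fn (T Ω h) x = ∫ x in Ω, h x * fn (T Ω g) x := by
  rw [← (weak_pair hN hΩ hg (T_weak hN hΩ hg) (T_mem Ω h)).2,
    ← (weak_pair hN hΩ hh (T_weak hN hΩ hh) (T_mem Ω g)).2, real_inner_comm]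

/-! ### Hölder on bounded sets -/

theorem vol_lt_top58 {R : ℝ} {Ω : Set (E N)} (hΩ : Ω ⊆ ball 0 R) :
    (volume : Measure (E N)) Ω < (⊤ : ℝ≥0∞) := (measure_mono hΩ).trans_lt measure_ball_lt_top

/-- Hölder: inclusion of the `L^q` on bounded sets -/
theorem Mq_mono {R : ℝ} {Ω : Set (E N)} (hΩ : Ω ⊆ ball 0 R) {q r : ℝ} (h1 : 0 < q) (h : q ≤ r)
    {g : E N → ℝ} (hg : Mq r Ω g) : Mq q Ω g := by
  have : IsFiniteMeasure ((volume : Measure (E N)).restrict Ω) :=
    ⟨by rw [Measure.restrict_apply_univ]; exact vol_lt_top58 hΩ⟩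
  exact hg.mono_exponent (ENNReal.ofReal_le_ofReal h)

theorem exists_nq_le {R q r : ℝ} (h1 : 1 ≤ q) (h : q ≤ r) : ∃ C : ℝ, 0 < C ∧
    ∀ (Ω : Set (E N)), Ω ⊆ ball 0 R → ∀ g : E N → ℝ, Mq r Ω g → nq q Ω g ≤ C * nq r Ω g := by
  have hq0 : 0 < q := by linarith
  have hr0 : 0 < r := by linarith
  have hexp : 0 ≤ 1 / q - 1 / r := by
    rw [sub_nonneg]
    exact one_div_le_one_div_of_le hq0 h
  obtain ⟨V, hV⟩ : ∃ V : ℝ≥0∞, V = (volume : Measure (E N)) (ball 0 R) ^ (1 / q - 1 / r) :=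
    ⟨_, rfl⟩
  have hVtop : V ≠ (⊤ : ℝ≥0∞) := by
    rw [hV]
    exact (ENNReal.rpow_lt_top_of_nonneg hexp measure_ball_lt_top.ne).ne
  refine ⟨V.toReal + 1, by positivity, fun Ω hΩ g hg => ?_⟩
  have h2 : eLpNorm g (ENNReal.ofReal q) (volume.restrict Ω) ≤
      eLpNorm g (ENNReal.ofReal r) (volume.restrict Ω) * V := by
    have h3 := eLpNorm_le_eLpNorm_mul_rpow_measure_univ (μ := volume.restrict Ω)
      (ENNReal.ofReal_le_ofReal h) hg.1
    refine h3.trans (mul_le_mul_right ?_ _)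
    rw [Measure.restrict_apply_univ, ENNReal.toReal_ofReal hq0.le, ENNReal.toReal_ofReal hr0.le,
      hV]
    exact ENNReal.rpow_le_rpow (measure_mono hΩ) hexp
  have h4 : nq q Ω g ≤ nq r Ω g * V.toReal := by
    unfold nq
    rw [← ENNReal.toReal_mul]
    exact ENNReal.toReal_mono (ENNReal.mul_ne_top hg.2.ne hVtop) h2
  have h5 : 0 ≤ nq r Ω g := ENNReal.toReal_nonneg
  nlinarith

/-- Hölder: potential times function -/
theorem holder_pot (hN : 3 ≤ N) {Ω : Set (E N)} {a u : E N → ℝ}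
    (ha : Mq (N / 2) Ω a) (hu : Mq (ts N) Ω u) :
    Mq (td N) Ω (fun x => a x * u x) ∧
      nq (td N) Ω (fun x => a x * u x) ≤ nq (N / 2) Ω a * nq (ts N) Ω u := by
  have h3 : (3 : ℝ) ≤ N := by exact_mod_cast hN
  have := holderTriple58 (p := (N : ℝ) / 2) (q := ts N) (r := td N) (by linarith)
    (ts_pos58 hN) (td_pos58 hN) (by
      unfold td ts
      have : (N : ℝ) - 2 ≠ 0 := by linarith
      have : (N : ℝ) + 2 ≠ 0 := by linarith
      have : (N : ℝ) ≠ 0 := by linarith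
      field_simp
      ring)
  refine ⟨hu.mul ha, ?_⟩
  have h4 : eLpNorm (fun x => a x * u x) (ENNReal.ofReal (td N)) (volume.restrict Ω) ≤
      eLpNorm a (ENNReal.ofReal (N / 2)) (volume.restrict Ω) *
        eLpNorm u (ENNReal.ofReal (ts N)) (volume.restrict Ω) := by
    have := eLpNorm_smul_le_mul_eLpNorm (μ := volume.restrict Ω) (p := ENNReal.ofReal (N / 2))
      (q := ENNReal.ofReal (ts N)) (r := ENNReal.ofReal (td N)) hu.1 ha.1
    exact this
  unfold nq
  rw [← ENNReal.toReal_mul]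
  exact ENNReal.toReal_mono (ENNReal.mul_ne_top ha.2.ne hu.2.ne) h4

end Pool.Agent.helper13.BN
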